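import Pool.Agent.H8.UGC.All0

/-!
# Block C for linear systems: all the members of the general linear system of dimension `j` are hyperbolic
-/

set_option autoImplicit false

open MvPolynomial Metric

namespace Pool.Agent.H14.UG

open Pool.Agent.H47.KB Pool.Agent.H8.UGC

/-- Polynomials in the coefficients of `j + 1` forms. -/
abbrev CofT (n j : ℕ) : Type := MvPolynomial (Fin (j + 1) × (Fin (n + 2) →₀ ℕ)) ℂ

/-- Value at a tuple of forms. -/
noncomputable def valT {n j : ℕ} (P : CofT n j) (F : Fin (j + 1) → Frm n) : ℂ :=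
  eval (fun p => (F p.1).coeff p.2) P

/-- For general tuples of `j + 1` forms of degree `d` all entire curves in the zero sets of all the nonzero
linear combinations are constant. -/
def HypSys (n j d : ℕ) : Prop :=
  ∃ P : CofT n j, (∃ F : Fin (j + 1) → Frm n, (∀ i, (F i).IsHomogeneous d) ∧ valT P F ≠ 0) ∧
    ∀ F : Fin (j + 1) → Frm n, (∀ i, (F i).IsHomogeneous d) → valT P F ≠ 0 →
      ∀ c : Fin (j + 1) → ℂ, c ≠ 0 → ∀ g, Entire (∑ i, c i • F i) g → IsConst g

/-- Polynomial functions on tuples of forms are polynomials in the coefficients. -/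
theorem exists_cofT {n j d : ℕ} (f : (Fin (j + 1) → Sd n d) → ℂ) (hf : IsPoly f) :
    ∃ P : CofT n j, ∀ F : Fin (j + 1) → Sd n d, f F = valT P fun i => (F i).1 := by
  classical
  let A : Subalgebra ℂ ((Fin (j + 1) → Sd n d) → ℂ) :=
    { carrier := {f | ∃ P : CofT n j, ∀ F : Fin (j + 1) → Sd n d, f F = valT P fun i => (F i).1}
      mul_mem' := by
        rintro f g ⟨P, hP⟩ ⟨Q, hQ⟩
        exact ⟨P * Q, fun F => by rw [Pi.mul_apply, hP, hQ, valT, valT, valT, map_mul]⟩
      add_mem' := by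
        rintro f g ⟨P, hP⟩ ⟨Q, hQ⟩
        exact ⟨P + Q, fun F => by rw [Pi.add_apply, hP, hQ, valT, valT, valT, map_add]⟩
      algebraMap_mem' := fun r => ⟨C r, fun F => by rw [valT, eval_C]; rfl⟩ }
  have hlin : ∀ l : (Fin (j + 1) → Sd n d) →ₗ[ℂ] ℂ, (⇑l : (Fin (j + 1) → Sd n d) → ℂ) ∈ A := by
    intro l
    have h1 : ∀ i : Fin (j + 1), ∃ P : Cof n, ∀ F : Sd n d,
        (l.comp (LinearMap.single ℂ (fun _ : Fin (j + 1) => Sd n d) i)) F = val P F.1 :=
      fun i => exists_cof _ (IsPoly.lin _)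
    choose P hP using h1
    refine ⟨∑ i, rename (fun u => (i, u)) (P i), fun F => ?_⟩
    have h2 : F = ∑ i, LinearMap.single ℂ (fun _ : Fin (j + 1) => Sd n d) i (F i) := by
      simp only [LinearMap.coe_single]
      exact (Finset.univ_sum_single F).symm
    calc l F = l (∑ i, LinearMap.single ℂ (fun _ : Fin (j + 1) => Sd n d) i (F i)) := by rw [← h2]
      _ = ∑ i, val (P i) (F i).1 := by
          rw [map_sum]
          exact Finset.sum_congr rfl fun i _ => hP i (F i)
      _ = _ := by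
          unfold valT
          rw [map_sum]
          refine Finset.sum_congr rfl fun i _ => ?_
          rw [eval_rename]
          rfl
  have h1 : P1 (Fin (j + 1) → Sd n d) ≤ Subalgebra.toSubmodule A := by
    unfold P1
    rw [Submodule.span_le]
    rintro g (rfl | ⟨l, rfl⟩)
    · exact A.one_mem
    · exact hlin l
  have h2 : ∀ D, PD (Fin (j + 1) → Sd n d) D ≤ Subalgebra.toSubmodule A := by
    intro D
    induction D with
    | zero =>
      rw [PD_zero, Submodule.one_le]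
      exact A.one_mem
    | succ D ih =>
      unfold PD at ih ⊢
      rw [pow_succ, Submodule.mul_le]
      intro x hx y hy
      exact A.mul_mem (ih hx) (h1 hy)
  obtain ⟨D, hD⟩ := hf
  exact h2 D hD

/-- The parameter space: a translation, the coefficients and the other members of the system. -/
abbrev Par (n j d : ℕ) : Type := (Fin (n + 1) → ℂ) × ((Fin j → ℂ) × (Fin j → Sd n d))

/-- The tuple whose combination with the coefficient `1` at the place `κ` is `T (a, G)`. -/
noncomputable def TT {n j d : ℕ} (T : (Fin (n + 1) → ℂ) × Vd n d → Sd n d) (κ : Fin (j + 1))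
    (v : Par n j d × Vd n d) : Fin (j + 1) → Sd n d :=
  κ.insertNth (α := fun _ => Sd n d) (T (v.1.1, v.2) - ∑ l, v.1.2.1 l • v.1.2.2 l) v.1.2.2

theorem TT_poly {n j d : ℕ} {T : (Fin (n + 1) → ℂ) × Vd n d → Sd n d} (hT : PolyMap T) (κ : Fin (j + 1)) :
    PolyMap (TT (j := j) T κ) := by
  classical
  obtain ⟨D, hD⟩ := hT
  refine ⟨max D 2, fun l => ?_⟩
  have h1 : (fun v : Par n j d × Vd n d => l (TT T κ v)) =
      (fun v : Par n j d × Vd n d => (l.comp (LinearMap.single ℂ (fun _ : Fin (j + 1) => Sd n d) κ))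
        (T (v.1.1, v.2))) -
      ∑ r : Fin j, (fun v : Par n j d × Vd n d => v.1.2.1 r) *
        (fun v : Par n j d × Vd n d => (l.comp (LinearMap.single ℂ (fun _ : Fin (j + 1) => Sd n d) κ))
          (v.1.2.2 r)) +
      ∑ r : Fin j, (fun v : Par n j d × Vd n d =>
        (l.comp (LinearMap.single ℂ (fun _ : Fin (j + 1) => Sd n d) (κ.succAbove r))) (v.1.2.2 r)) := by
    funext v
    have h2 : TT T κ v = ∑ i, LinearMap.single ℂ (fun _ : Fin (j + 1) => Sd n d) i (TT T κ v i) := by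
      simp only [LinearMap.coe_single]
      exact (Finset.univ_sum_single _).symm
    have h3 : TT T κ v κ = T (v.1.1, v.2) - ∑ l, v.1.2.1 l • v.1.2.2 l := by
      unfold TT
      rw [Fin.insertNth_apply_same]
    have h4 : ∀ r : Fin j, TT T κ v (κ.succAbove r) = v.1.2.2 r := by
      intro r
      unfold TT
      rw [Fin.insertNth_apply_succAbove]
    rw [h2, Fin.sum_univ_succAbove _ κ, h3]
    simp only [h4, map_add, map_sub, map_sum, map_smul, Pi.add_apply, Pi.sub_apply, Finset.sum_apply, Pi.mul_apply,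
      LinearMap.comp_apply, smul_eq_mul]
  rw [h1]
  have e1 : (fun v : Par n j d × Vd n d => (l.comp (LinearMap.single ℂ (fun _ : Fin (j + 1) => Sd n d) κ))
        (T (v.1.1, v.2))) ∈ PD (Par n j d × Vd n d) (max D 2) := by
    have h5 := hD (l.comp (LinearMap.single ℂ (fun _ : Fin (j + 1) => Sd n d) κ))
    let L : (Par n j d × Vd n d) →ₗ[ℂ] ((Fin (n + 1) → ℂ) × Vd n d) :=
      LinearMap.prod ((LinearMap.fst ℂ (Fin (n + 1) → ℂ) ((Fin j → ℂ) × (Fin j → Sd n d))).comp
        (LinearMap.fst ℂ (Par n j d) (Vd n d))) (LinearMap.snd ℂ (Par n j d) (Vd n d))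
    have h6 : PolyMapD (fun v => L v) 1 := by
      have := polyMapD_affine L 0
      simpa using this
    have h7 := comp_mem_PD h6 h5
    rw [one_mul] at h7
    exact PD_mono (le_max_left _ _) h7
  refine Submodule.add_mem _ (Submodule.sub_mem _ e1 (Submodule.sum_mem _ fun r _ => ?_))
    (Submodule.sum_mem _ fun r _ => ?_)
  · refine PD_mono (a := 1 + 1) (le_max_right _ _) (mul_mem_PD ?_ ?_)
    · exact lin_mem_PD ((LinearMap.proj r).comp ((LinearMap.fst ℂ (Fin j → ℂ) (Fin j → Sd n d)).comp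
        ((LinearMap.snd ℂ (Fin (n + 1) → ℂ) ((Fin j → ℂ) × (Fin j → Sd n d))).comp
          (LinearMap.fst ℂ (Par n j d) (Vd n d))))) le_rfl
    · exact lin_mem_PD ((l.comp (LinearMap.single ℂ (fun _ : Fin (j + 1) => Sd n d) κ)).comp
        ((LinearMap.proj r).comp ((LinearMap.snd ℂ (Fin j → ℂ) (Fin j → Sd n d)).comp
        ((LinearMap.snd ℂ (Fin (n + 1) → ℂ) ((Fin j → ℂ) × (Fin j → Sd n d))).comp
          (LinearMap.fst ℂ (Par n j d) (Vd n d)))))) le_rfl
  · refine PD_mono (a := 1) (le_trans (by norm_num) (le_max_right D 2)) ?_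
    exact lin_mem_PD ((l.comp (LinearMap.single ℂ (fun _ : Fin (j + 1) => Sd n d) (κ.succAbove r))).comp
        ((LinearMap.proj r).comp ((LinearMap.snd ℂ (Fin j → ℂ) (Fin j → Sd n d)).comp
        ((LinearMap.snd ℂ (Fin (n + 1) → ℂ) ((Fin j → ℂ) × (Fin j → Sd n d))).comp
          (LinearMap.fst ℂ (Par n j d) (Vd n d)))))) le_rfl

theorem TT_comb {n j d : ℕ} (T : (Fin (n + 1) → ℂ) × Vd n d → Sd n d) (κ : Fin (j + 1))
    (F : Fin (j + 1) → Sd n d) (c : Fin (j + 1) → ℂ) (hc : c κ = 1) (a : Fin (n + 1) → ℂ) (G : Vd n d)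
    (h : T (a, G) = ∑ i, c i • F i) :
    TT T κ ((a, fun r => c (κ.succAbove r), fun r => F (κ.succAbove r)), G) = F := by
  unfold TT
  funext i
  rcases Fin.eq_self_or_eq_succAbove κ i with rfl | ⟨r, rfl⟩
  · rw [Fin.insertNth_apply_same, h, Fin.sum_univ_succAbove _ i, hc, one_smul, add_sub_cancel_right]
  · rw [Fin.insertNth_apply_succAbove]

/-- The last step of block C for systems. -/
theorem finish_sys {n j d : ℕ} (hmap : MapS) (hres : ResS) (hd : 1 ≤ d)
    (W : Submodule ℂ (Vd n d))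
    (hW : n + j + 1 ≤ Module.finrank ℂ W) (hWZ : ∀ w ∈ W, w ∈ cl (Bad n d) → w = 0) : HypSys n j d := by
  classical
  have hdim : Module.finrank ℂ (Par n j d) + Module.finrank ℂ (Vd n d ⧸ W) <
      Module.finrank ℂ (Fin (j + 1) → Sd n d) := by
    have h1 := W.finrank_quotient_add_finrank
    have h2 := finrank_Vd (n := n) hd
    rw [Module.finrank_prod, Module.finrank_prod, Module.finrank_fin_fun, Module.finrank_fin_fun,
      Module.finrank_pi_fintype, Module.finrank_pi_fintype]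
    simp only [Finset.sum_const, Finset.card_univ, Fintype.card_fin, smul_eq_mul]
    have h3 : (j + 1) * Module.finrank ℂ (Sd n d) = j * Module.finrank ℂ (Sd n d) + Module.finrank ℂ (Sd n d) := by
      ring
    omega
  have hex : ∀ q : Fin (n + 2) × Fin (j + 1), ∃ f : (Fin (j + 1) → Sd n d) → ℂ, IsPoly f ∧ (∃ s, f s ≠ 0) ∧
      ∀ F : Fin (j + 1) → Sd n d, f F ≠ 0 → ∀ c : Fin (j + 1) → ℂ, c q.2 = 1 → ∀ x : Vec n, x q.1 = 1 →
        eval x (∑ i, c i • F i : Sd n d).1 = 0 →
        ∀ g : ℂ → Vec n, BrodyC (∑ i, c i • F i : Sd n d).1 g → ¬ IsConst g → g 0 ≠ x := by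
    rintro ⟨i, κ⟩
    obtain ⟨T, hTp, hTx⟩ := exists_T (n := n) (d := d) i
    obtain ⟨f, hf, hne, hz⟩ := count (cl (Bad n d)) (ZC_cl _) (cl_cone (Bad_cone n d)) W hWZ (TT T κ)
      (TT_poly hTp κ) hdim
    refine ⟨f, hf, hne, fun F hF c hc x hx h0 g hg hgc hgx => hF ?_⟩
    obtain ⟨a, φ, hφ, hφx, hG⟩ := hTx x hx
    obtain ⟨G, hTG, hev⟩ := hG (∑ i, c i • F i) h0
    obtain ⟨h1, h2⟩ := hmap n n φ hφ G.1 _ hev g hg hgc
    rw [← TT_comb T κ F c hc a G hTG]
    refine hz _ G (subset_cl _ ⟨_, h1, h2, 0, ?_⟩)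
    rw [hgx, hφx]
  choose f hf hne hbad using hex
  have hP : ∀ q, ∃ P : CofT n j, ∀ F : Fin (j + 1) → Sd n d, f q F = valT P fun i => (F i).1 :=
    fun q => exists_cofT (f q) (hf q)
  choose P hP using hP
  obtain ⟨F₁, hF₁⟩ : ∃ v, ∀ q, f q v ≠ 0 := by
    by_contra hcon
    push Not at hcon
    obtain ⟨i, _, hi⟩ := cover Finset.univ (fun q => {v | f q v = 0}) (fun q _ => ZC_zero (hf q)) fun v => by
      obtain ⟨i, hi⟩ := hcon v
      exact ⟨i, Finset.mem_univ i, hi⟩
    obtain ⟨v, hv⟩ := hne i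
    exact hv (hi v)
  refine ⟨∏ q, P q, ⟨fun i => (F₁ i).1, fun i => (mem_homogeneousSubmodule _ _).1 (F₁ i).2, ?_⟩, ?_⟩
  · unfold valT
    rw [map_prod, Finset.prod_ne_zero_iff]
    intro q _
    have := hF₁ q
    rw [hP q] at this
    exact this
  · intro F hF hval c hc
    obtain ⟨κ, hκ⟩ : ∃ κ, c κ ≠ 0 := by
      by_contra hcon
      push Not at hcon
      exact hc (funext hcon)
    let F' : Fin (j + 1) → Sd n d := fun i => ⟨F i, (mem_homogeneousSubmodule _ _).2 (hF i)⟩
    let c' : Fin (j + 1) → ℂ := fun i => (c κ)⁻¹ * c i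
    have hc' : c' κ = 1 := inv_mul_cancel₀ hκ
    have hsum : (∑ i, c' i • F' i : Sd n d).1 = (c κ)⁻¹ • ∑ i, c i • F i := by
      rw [Submodule.coe_sum, Finset.smul_sum]
      refine Finset.sum_congr rfl fun i _ => ?_
      rw [Submodule.coe_smul, smul_smul]
    have hfq : ∀ q, f q F' ≠ 0 := by
      intro q
      rw [hP q]
      unfold valT at hval
      rw [map_prod, Finset.prod_ne_zero_iff] at hval
      exact hval q (Finset.mem_univ q)
    have hno : ∀ g : ℂ → Vec n, BrodyC (∑ i, c' i • F' i : Sd n d).1 g → IsConst g := by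
      intro g hg
      by_contra hgc
      obtain ⟨⟨r, hr, C, hch⟩, h0⟩ := hg
      obtain ⟨i, hi⟩ := hch 0
      have hgi : g 0 i ≠ 0 := hi.ne 0 (mem_ball_self hr)
      obtain ⟨h1, h2⟩ := hres n d _ ((mem_homogeneousSubmodule _ _).1 (∑ i, c' i • F' i : Sd n d).2) g
        ⟨⟨r, hr, C, hch⟩, h0⟩ hgc (fun _ => (g 0 i)⁻¹) fun _ => inv_ne_zero hgi
      refine hbad (i, κ) F' (hfq _) c' hc' ((g 0 i)⁻¹ • g 0) ?_ ?_ (fun z => (g 0 i)⁻¹ • g z) h1 h2 rfl
      · rw [Pi.smul_apply, smul_eq_mul, inv_mul_cancel₀ hgi]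
      · exact h1.2 0
    intro g hg
    refine const_of_no_brodyC ((mem_homogeneousSubmodule _ _).1 (∑ i, c' i • F' i : Sd n d).2) hno g
      ⟨hg.1, hg.2.1, fun z => ?_⟩
    rw [hsum, smul_eval, hg.2.2 z, mul_zero]

/-- Block C for systems. -/
theorem blockC_sys (hmap : MapS) (hres : ResS) (hstart : StartS) {n j d : ℕ} (hd : 1 ≤ d)
    (h : GGLC (2 * n + j) d) : HypSys n j d := by
  obtain ⟨e, rfl⟩ : ∃ e, d = e + 1 := ⟨d - 1, by omega⟩
  have key : ∀ s : ℕ, ∀ r : ℕ, r + s = 2 * n + j → ∃ W : Submodule ℂ (Vd r (e + 1)),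
      Module.finrank ℂ W = s + 1 ∧ ∀ w ∈ W, w ∈ cl (Bad r (e + 1)) → w = 0 := by
    intro s
    induction s with
    | zero =>
      intro r hr
      obtain rfl : r = 2 * n + j := by omega
      exact hstart _ _ hd h
    | succ s ih =>
      intro r hr
      obtain ⟨W, h1, h2⟩ := ih (r + 1) (by omega)
      obtain ⟨W', h3, h4⟩ := geo_step stepS (fun _ _ l hl => exists_pi l hl) mm_span hmap zero_mem_Bad
        Bad_cone W (by
          rintro rfl
          rw [finrank_bot] at h1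
          omega) h2
      exact ⟨W', by omega, h4⟩
  obtain ⟨W, h1, h2⟩ := key (n + j) n (by omega)
  exact finish_sys hmap hres hd W (by omega) h2

end Pool.Agent.H14.UG
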