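import Pool.Agent.H47.UG.Alg

/-!
# `H¹ = 0` for large twists, uniformly in the weight, the degree and the number of minors
-/

set_option autoImplicit false

open MvPolynomial

namespace Pool.Agent.H14.UG

open Pool.Agent.H47.UG

/-- Indices of the generators of degree `0`. -/
abbrev Ix (n k : ℕ) : Type := (Fin k × Fin (n + 2) × Fin (n + 2)) ⊕ (Fin n → Fin k)

/-- The Noetherian base ring. -/
abbrev AA (K : Type) [Field K] (n k : ℕ) : Type := MvPolynomial (Ix n k) K

/-- Forms over the base ring. -/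
abbrev RR (K : Type) [Field K] (n k : ℕ) : Type := MvPolynomial (Fin (n + 2)) (AA K n k)

section

variable {K : Type} [Field K] {n d : ℕ} {F : HP K n} (T : FF d F) (k : ℕ)

/-- `x_a δ_s x_b - x_b δ_s x_a` -/
noncomputable def tt (s : ℕ) (a b : Fin (n + 2)) : T.BB := C (T.x a) * T.δ s (T.x b) - C (T.x b) * T.δ s (T.x a)

/-- The values of the generators of degree `0`. -/
noncomputable def φA : AA K n k →ₐ[K] Polynomial T.BB :=
  aeval (Sum.elim (fun p => Polynomial.C (tt T (p.1 : ℕ) p.2.1 p.2.2))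
    (fun c => Polynomial.C (T.ρ c) * Polynomial.X))

/-- The values of forms over the base ring. -/
noncomputable def ψ : RR K n k →+* Polynomial T.BB :=
  eval₂Hom (φA T k : AA K n k →+* Polynomial T.BB) fun i => Polynomial.C (C (T.x i))

theorem ψ_X (i : Fin (n + 2)) : ψ T k (X i) = Polynomial.C (C (T.x i)) := by
  unfold ψ
  rw [coe_eval₂Hom, eval₂_X]

theorem ψ_C (a : AA K n k) : ψ T k (C a) = φA T k a := by
  unfold ψ
  rw [coe_eval₂Hom, eval₂_C]
  rfl

/-- Elements of `BB` which are values of forms of degree `D` with exponent `p` of the marking variable. -/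
noncomputable def Im (D p : ℕ) : Submodule K T.BB where
  carrier := {v | ∃ P : RR K n k, P.IsHomogeneous D ∧ ψ T k P = Polynomial.monomial p v}
  add_mem' := by
    rintro v w ⟨P, hP, hv⟩ ⟨Q, hQ, hw⟩
    exact ⟨P + Q, hP.add hQ, by rw [map_add, hv, hw, map_add]⟩
  zero_mem' := ⟨0, isHomogeneous_zero _ _ _, by simp⟩
  smul_mem' := by
    rintro c v ⟨P, hP, hv⟩
    refine ⟨C (C c) * P, ?_, ?_⟩
    · have := (isHomogeneous_C (Fin (n + 2)) (C c : AA K n k)).mul hP
      rwa [zero_add] at this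
    · rw [map_mul, hv, ψ_C]
      have h1 : φA T k (C c) = Polynomial.C (C (algebraMap K T.L c)) := by
        have := (φA T k).commutes c
        exact this
      rw [h1, Polynomial.C_mul_monomial]
      congr 1
      rw [Algebra.smul_def]
      rfl

variable {T k}

theorem Im_one : (1 : T.BB) ∈ Im T k 0 0 :=
  ⟨1, isHomogeneous_one _ _, by rw [map_one]; rfl⟩

theorem Im_x {D p : ℕ} {v : T.BB} (hv : v ∈ Im T k D p) (j : Fin (n + 2)) : C (T.x j) * v ∈ Im T k (D + 1) p := by
  obtain ⟨P, hP, h⟩ := hv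
  refine ⟨X j * P, ?_, ?_⟩
  · have := (isHomogeneous_X (AA K n k) j).mul hP
    rwa [add_comm 1 D] at this
  · rw [map_mul, h, ψ_X, Polynomial.C_mul_monomial]

theorem Im_xpow {D p : ℕ} {v : T.BB} (hv : v ∈ Im T k D p) (j : Fin (n + 2)) (N : ℕ) :
    C (T.x j ^ N) * v ∈ Im T k (D + N) p := by
  induction N with
  | zero => simpa using hv
  | succ N ih =>
    have := Im_x ih j
    rw [← mul_assoc, ← C_mul, ← pow_succ'] at this
    exact this

theorem Im_t {D p : ℕ} {v : T.BB} (hv : v ∈ Im T k D p) (s : Fin k) (a b : Fin (n + 2)) :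
    tt T (s : ℕ) a b * v ∈ Im T k D p := by
  obtain ⟨P, hP, h⟩ := hv
  refine ⟨C (X (Sum.inl (s, a, b))) * P, ?_, ?_⟩
  · have := (isHomogeneous_C (Fin (n + 2)) (X (Sum.inl (s, a, b)) : AA K n k)).mul hP
    rwa [zero_add] at this
  · rw [map_mul, h, ψ_C, φA, aeval_X, Sum.elim_inl, Polynomial.C_mul_monomial]

theorem Im_ρ {D p : ℕ} {v : T.BB} (hv : v ∈ Im T k D p) (c : Fin n → Fin k) :
    T.ρ c * v ∈ Im T k D (p + 1) := by
  obtain ⟨P, hP, h⟩ := hv
  refine ⟨C (X (Sum.inr c)) * P, ?_, ?_⟩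
  · have := (isHomogeneous_C (Fin (n + 2)) (X (Sum.inr c) : AA K n k)).mul hP
    rwa [zero_add] at this
  · rw [map_mul, h, ψ_C, φA, aeval_X, Sum.elim_inr, mul_assoc, Polynomial.X_mul_monomial,
      Polynomial.C_mul_monomial]

theorem ψ_map (P : HP K n) : ψ T k (MvPolynomial.map (C : K →+* AA K n k) P) = Polynomial.C (C (aeval T.x P)) := by
  have h : (ψ T k).comp (MvPolynomial.map (C : K →+* AA K n k)) =
      (Polynomial.C.comp (C : T.L →+* T.BB)).comp (aeval T.x : HP K n →ₐ[K] T.L).toRingHom := by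
    refine MvPolynomial.ringHom_ext ?_ ?_
    · intro c
      simp only [RingHom.comp_apply, map_C, ψ_C, AlgHom.toRingHom_eq_coe, RingHom.coe_coe]
      have h1 : φA T k (C c) = Polynomial.C (C (algebraMap K T.L c)) := (φA T k).commutes c
      rw [h1, aeval_C]
    · intro i
      simp only [RingHom.comp_apply, map_X, ψ_X, AlgHom.toRingHom_eq_coe, RingHom.coe_coe, aeval_X]
  exact congrArg (fun f => f P) h

theorem Im_form {D p s : ℕ} {v : T.BB} (hv : v ∈ Im T k D p) {P : HP K n} (hP : P.IsHomogeneous s) :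
    C (aeval T.x P) * v ∈ Im T k (D + s) p := by
  obtain ⟨Q, hQ, h⟩ := hv
  refine ⟨MvPolynomial.map (C : K →+* AA K n k) P * Q, ?_, ?_⟩
  · have := (hP.map (C : K →+* AA K n k)).mul hQ
    rwa [add_comm s D] at this
  · rw [map_mul, h, ψ_map, Polynomial.C_mul_monomial]

theorem exists_form (i : Fin (n + 2)) {a : T.L} (ha : a ∈ T.A i) :
    ∃ (s : ℕ) (P : HP K n), P.IsHomogeneous s ∧ a * T.x i ^ s = aeval T.x P := by
  unfold FF.A at ha
  induction ha using Algebra.adjoin_induction with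
  | mem y hy =>
    obtain ⟨l, rfl⟩ := hy
    refine ⟨1, X l, isHomogeneous_X _ _, ?_⟩
    have := T.x_ne i
    simp only [pow_one, aeval_X]
    field_simp
  | algebraMap r =>
    exact ⟨0, C r, isHomogeneous_C _ _, by simp⟩
  | add y z _ _ hy hz =>
    obtain ⟨s, P, hP, h1⟩ := hy
    obtain ⟨r, Q, hQ, h2⟩ := hz
    refine ⟨s + r, X i ^ r * P + X i ^ s * Q, ?_, ?_⟩
    · refine IsHomogeneous.add ?_ ?_
      · have := (isHomogeneous_X_pow (R := K) i r).mul hP
        rwa [add_comm r s] at this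
      · exact (isHomogeneous_X_pow (R := K) i s).mul hQ
    · rw [map_add, map_mul, map_mul, ← h1, ← h2, map_pow, map_pow, aeval_X]
      ring
  | mul y z _ _ hy hz =>
    obtain ⟨s, P, hP, h1⟩ := hy
    obtain ⟨r, Q, hQ, h2⟩ := hz
    refine ⟨s + r, P * Q, hP.mul hQ, ?_⟩
    rw [map_mul, ← h1, ← h2]
    ring

theorem δ_div (s : ℕ) (a b : Fin (n + 2)) :
    T.δ s (T.x a / T.x b) = C ((T.x b ^ 2)⁻¹) * tt T s b a := by
  unfold FF.δ tt
  simp only [FF.δ, Finset.mul_sum, mul_sub, ← Finset.sum_sub_distrib]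
  refine Finset.sum_congr rfl fun l _ => ?_
  rw [Derivation.leibniz_div, smul_eq_mul, smul_eq_mul, smul_eq_mul, inv_pow]
  simp only [C_mul, C_sub]
  ring

end

end Pool.Agent.H14.UG
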