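import Pool.Agent.H14.UG.Van

/-!
# Representation of the sections on a chart by forms over the base ring, and conversely
-/

set_option autoImplicit false

open MvPolynomial

namespace Pool.Agent.H14.UG

open Pool.Agent.H47.UG

variable {K : Type} [Field K] {n d : ℕ} {F : HP K n} {T : FF d F} {k : ℕ}

theorem Im_prod {ι : Type} (S : Finset ι) (f : ι → T.BB)
    (hf : ∀ j ∈ S, ∀ (v : T.BB) (D p : ℕ), v ∈ Im T k D p → f j * v ∈ Im T k D p) {v : T.BB} {D p : ℕ}
    (hv : v ∈ Im T k D p) : (∏ j ∈ S, f j) * v ∈ Im T k D p := by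
  classical
  induction S using Finset.induction_on with
  | empty => simpa using hv
  | insert a S ha ih =>
    rw [Finset.prod_insert ha, mul_assoc]
    exact hf a (Finset.mem_insert_self _ _) _ _ _ (ih fun j hj => hf j (Finset.mem_insert_of_mem hj))

theorem Im_ρs {D : ℕ} {v : T.BB} (hv : v ∈ Im T k D 0) : ∀ (p : ℕ) (c : Fin p → Fin n → Fin k),
    (∏ r, T.ρ (c r)) * v ∈ Im T k D p
  | 0, c => by simpa using hv
  | p + 1, c => by
    rw [Fin.prod_univ_succ, mul_assoc]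
    exact Im_ρ (Im_ρs hv p fun r => c r.succ) (c 0)

theorem rep_GG {e : ℤ} {m q : ℕ} {i : Fin (n + 2)} {g : T.BB} (hg : g ∈ T.GG k e m q i) {E : ℕ}
    (hE : (E : ℤ) = e - 2 * q) : ∃ N₁ : ℕ, ∀ N ≥ N₁, C (T.x i ^ N) * g ∈ Im T k (E + N) 0 := by
  obtain rfl : e = (E : ℤ) + 2 * q := by omega
  change g ∈ Submodule.span K _ at hg
  induction hg using Submodule.span_induction with
  | mem v hv =>
    obtain ⟨a, ha, s, l, -, rfl⟩ := hv
    obtain ⟨r, P, hP, h⟩ := exists_form i ha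
    refine ⟨r, fun N hN => ?_⟩
    have hx := T.x_ne i
    have h0 : (∏ r, tt T (s r : ℕ) i (l r)) * 1 ∈ Im T k 0 0 :=
      Im_prod Finset.univ (fun r => tt T (s r : ℕ) i (l r)) (fun j _ v D p hv => Im_t hv _ _ _) Im_one
    have h1 := Im_xpow (Im_form h0 hP) i (E + N - r)
    have h2 : 0 + r + (E + N - r) = E + N := by omega
    rw [h2] at h1
    convert h1 using 1
    have h3 : ∏ r, T.δ (s r) (T.x (l r) / T.x i) =
        C (((T.x i ^ 2)⁻¹) ^ q) * ∏ r, tt T (s r : ℕ) i (l r) := by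
      simp only [δ_div]
      rw [Finset.prod_mul_distrib, Finset.prod_const, Finset.card_univ, Fintype.card_fin, map_pow]
    rw [h3, ← h, mul_one]
    have h4 : T.x i ^ N * (T.x i ^ ((E : ℤ) + 2 * q) * a) * (((T.x i ^ 2)⁻¹) ^ q) =
        T.x i ^ (E + N - r) * (a * T.x i ^ r) := by
      have h5 : T.x i ^ (E + N) = T.x i ^ (E + N - r) * T.x i ^ r := by
        rw [← pow_add]
        congr 1
        omega
      have h6 : T.x i ^ ((E : ℤ) + 2 * q) = T.x i ^ E * (T.x i ^ 2) ^ q := by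
        rw [zpow_add₀ hx, zpow_natCast, zpow_mul]
        norm_cast
      rw [h6, inv_pow]
      have h7 : (T.x i ^ 2) ^ q ≠ 0 := pow_ne_zero _ (pow_ne_zero _ hx)
      calc T.x i ^ N * (T.x i ^ E * (T.x i ^ 2) ^ q * a) * ((T.x i ^ 2) ^ q)⁻¹
          = T.x i ^ (E + N) * a * ((T.x i ^ 2) ^ q * ((T.x i ^ 2) ^ q)⁻¹) := by rw [pow_add]; ring
        _ = T.x i ^ (E + N - r) * (a * T.x i ^ r) := by rw [mul_inv_cancel₀ h7, h5]; ring
    calc C (T.x i ^ N) * (C (T.x i ^ ((E : ℤ) + 2 * q) * a) * (C (((T.x i ^ 2)⁻¹) ^ q) *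
          ∏ r, tt T (s r : ℕ) i (l r)))
        = C (T.x i ^ N * (T.x i ^ ((E : ℤ) + 2 * q) * a) * (((T.x i ^ 2)⁻¹) ^ q)) *
          ∏ r, tt T (s r : ℕ) i (l r) := by
          simp only [C_mul]; ring
      _ = C (T.x i ^ (E + N - r)) * (C (a * T.x i ^ r) * ∏ r, tt T (s r : ℕ) i (l r)) := by
          rw [h4, C_mul, mul_assoc]
  | zero => exact ⟨0, fun N _ => by rw [mul_zero]; exact Submodule.zero_mem _⟩
  | add y z _ _ hy hz =>
    obtain ⟨N1, h1⟩ := hy
    obtain ⟨N2, h2⟩ := hz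
    refine ⟨max N1 N2, fun N hN => ?_⟩
    rw [mul_add]
    exact Submodule.add_mem _ (h1 N (le_trans (le_max_left _ _) hN)) (h2 N (le_trans (le_max_right _ _) hN))
  | smul c y _ hy =>
    obtain ⟨N1, h1⟩ := hy
    refine ⟨N1, fun N hN => ?_⟩
    rw [mul_smul_comm]
    exact Submodule.smul_mem _ _ (h1 N hN)

theorem rep_GP {e : ℤ} {p m q : ℕ} {i : Fin (n + 2)} {g : T.BB} (hg : g ∈ T.GP k p e m q i) {E : ℕ}
    (hE : (E : ℤ) = e + p * ((d : ℤ) - n - 2) - 2 * ((q : ℤ) - p * n)) :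
    ∃ N₁ : ℕ, ∀ N ≥ N₁, C (T.x i ^ N) * g ∈ Im T k (E + N) p := by
  change g ∈ Submodule.span K _ at hg
  induction hg using Submodule.span_induction with
  | mem v hv =>
    obtain ⟨c, m', q', g', hg', hq, -, rfl⟩ := hv
    have hE' : (E : ℤ) = (e + p * ((d : ℤ) - n - 2)) - 2 * q' := by
      rw [hE, ← hq]
      push_cast
      ring
    obtain ⟨N1, h1⟩ := rep_GG hg' hE'
    refine ⟨N1, fun N hN => ?_⟩
    have := Im_ρs (h1 N hN) p c
    convert this using 1
    ring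
  | zero => exact ⟨0, fun N _ => by rw [mul_zero]; exact Submodule.zero_mem _⟩
  | add y z _ _ hy hz =>
    obtain ⟨N1, h1⟩ := hy
    obtain ⟨N2, h2⟩ := hz
    refine ⟨max N1 N2, fun N hN => ?_⟩
    rw [mul_add]
    exact Submodule.add_mem _ (h1 N (le_trans (le_max_left _ _) hN)) (h2 N (le_trans (le_max_right _ _) hN))
  | smul c y _ hy =>
    obtain ⟨N1, h1⟩ := hy
    refine ⟨N1, fun N hN => ?_⟩
    rw [mul_smul_comm]
    exact Submodule.smul_mem _ _ (h1 N hN)

theorem mem_GG_mul {e : ℤ} {m q : ℕ} {i : Fin (n + 2)} {g : T.BB} (hg : g ∈ T.GG k e m q i) (j : ℤ) {a : T.L}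
    (ha : a ∈ T.A i) : C (T.x i ^ j * a) * g ∈ T.GG k (e + j) m q i := by
  change g ∈ Submodule.span K _ at hg
  induction hg using Submodule.span_induction with
  | mem v hv =>
    obtain ⟨b, hb, s, l, hm, rfl⟩ := hv
    refine Submodule.subset_span ⟨a * b, mul_mem ha hb, s, l, hm, ?_⟩
    rw [← mul_assoc, ← C_mul]
    congr 2
    rw [zpow_add₀ (T.x_ne i)]
    ring
  | zero => rw [mul_zero]; exact Submodule.zero_mem _
  | add y z _ _ hy hz => rw [mul_add]; exact Submodule.add_mem _ hy hz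
  | smul c y _ hy => rw [mul_smul_comm]; exact Submodule.smul_mem _ _ hy

theorem mem_GG_δ {e : ℤ} {m q : ℕ} {i : Fin (n + 2)} {g : T.BB} (hg : g ∈ T.GG k e m q i) (s : Fin k)
    (l : Fin (n + 2)) : T.δ s (T.x l / T.x i) * g ∈ T.GG k e (m + ((s : ℕ) + 1)) (q + 1) i := by
  change g ∈ Submodule.span K _ at hg
  induction hg using Submodule.span_induction with
  | mem v hv =>
    obtain ⟨b, hb, s', l', hm, rfl⟩ := hv
    refine Submodule.subset_span ⟨b, hb, Fin.cons s s', Fin.cons l l', ?_, ?_⟩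
    · rw [Fin.sum_univ_succ]
      simp only [Fin.cons_zero, Fin.cons_succ]
      rw [hm, add_comm]
    · rw [Fin.prod_univ_succ]
      simp only [Fin.cons_zero, Fin.cons_succ]
      ring
  | zero => rw [mul_zero]; exact Submodule.zero_mem _
  | add y z _ _ hy hz => rw [mul_add]; exact Submodule.add_mem _ hy hz
  | smul c y _ hy => rw [mul_smul_comm]; exact Submodule.smul_mem _ _ hy

theorem mem_GP_mul {e : ℤ} {p m q : ℕ} {i : Fin (n + 2)} {g : T.BB} (hg : g ∈ T.GP k p e m q i) (j : ℤ)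
    {a : T.L} (ha : a ∈ T.A i) : C (T.x i ^ j * a) * g ∈ T.GP k p (e + j) m q i := by
  change g ∈ Submodule.span K _ at hg
  induction hg using Submodule.span_induction with
  | mem v hv =>
    obtain ⟨c, m', q', g', hg', hq, hm, rfl⟩ := hv
    have h1 := mem_GG_mul hg' j ha
    have h2 : e + p * ((d : ℤ) - n - 2) + j = e + j + p * ((d : ℤ) - n - 2) := by ring
    rw [h2] at h1
    refine Submodule.subset_span ⟨c, m', q', _, h1, hq, hm, ?_⟩
    ring
  | zero => rw [mul_zero]; exact Submodule.zero_mem _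
  | add y z _ _ hy hz => rw [mul_add]; exact Submodule.add_mem _ hy hz
  | smul c y _ hy => rw [mul_smul_comm]; exact Submodule.smul_mem _ _ hy

theorem mem_GP_δ {e : ℤ} {p m q : ℕ} {i : Fin (n + 2)} {g : T.BB} (hg : g ∈ T.GP k p e m q i) (s : Fin k)
    (l : Fin (n + 2)) : T.δ s (T.x l / T.x i) * g ∈ T.GP k p e (m + ((s : ℕ) + 1)) (q + 1) i := by
  change g ∈ Submodule.span K _ at hg
  induction hg using Submodule.span_induction with
  | mem v hv =>
    obtain ⟨c, m', q', g', hg', hq, hm, rfl⟩ := hv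
    refine Submodule.subset_span ⟨c, _, _, _, mem_GG_δ hg' s l, ?_, ?_, ?_⟩
    · omega
    · omega
    · ring
  | zero => rw [mul_zero]; exact Submodule.zero_mem _
  | add y z _ _ hy hz => rw [mul_add]; exact Submodule.add_mem _ hy hz
  | smul c y _ hy => rw [mul_smul_comm]; exact Submodule.smul_mem _ _ hy

theorem mem_GP_ρ {e : ℤ} {p m q : ℕ} {i : Fin (n + 2)} {g : T.BB} (hg : g ∈ T.GP k p e m q i)
    (c : Fin n → Fin k) :
    T.ρ c * g ∈ T.GP k (p + 1) (e - ((d : ℤ) - n - 2)) (m + ∑ t, ((c t : ℕ) + 1)) (q + n) i := by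
  change g ∈ Submodule.span K _ at hg
  induction hg using Submodule.span_induction with
  | mem v hv =>
    obtain ⟨c', m', q', g', hg', hq, hm, rfl⟩ := hv
    have h2 : e + p * ((d : ℤ) - n - 2) = e - ((d : ℤ) - n - 2) + (p + 1 : ℕ) * ((d : ℤ) - n - 2) := by
      push_cast
      ring
    rw [h2] at hg'
    refine Submodule.subset_span ⟨Fin.cons c c', m', q', g', hg', ?_, ?_, ?_⟩
    · rw [← hq]; ring
    · rw [Fin.sum_univ_succ]
      simp only [Fin.cons_zero, Fin.cons_succ]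
      omega
    · rw [Fin.prod_univ_succ]
      simp only [Fin.cons_zero, Fin.cons_succ]
      ring
  | zero => rw [mul_zero]; exact Submodule.zero_mem _
  | add y z _ _ hy hz => rw [mul_add]; exact Submodule.add_mem _ hy hz
  | smul c y _ hy => rw [mul_smul_comm]; exact Submodule.smul_mem _ _ hy

theorem ratio_mem (i a : Fin (n + 2)) : T.x a / T.x i ∈ T.A i := Algebra.subset_adjoin ⟨a, rfl⟩

theorem mem_GP_x {e : ℤ} {p m q : ℕ} {i : Fin (n + 2)} {g : T.BB} (hg : g ∈ T.GP k p e m q i)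
    (j : Fin (n + 2)) : C (T.x j) * g ∈ T.GP k p (e + 1) m q i := by
  have h := mem_GP_mul hg 1 (ratio_mem i j)
  have h1 : T.x i ^ (1 : ℤ) * (T.x j / T.x i) = T.x j := by
    rw [zpow_one, mul_div_cancel₀ _ (T.x_ne i)]
  rwa [h1] at h

theorem tt_eq (s : ℕ) (i a b : Fin (n + 2)) : tt T s a b =
    C (T.x i ^ (2 : ℤ) * (T.x a / T.x i)) * T.δ s (T.x b / T.x i) -
      C (T.x i ^ (2 : ℤ) * (T.x b / T.x i)) * T.δ s (T.x a / T.x i) := by
  have hx := T.x_ne i
  rw [δ_div, δ_div]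
  have h1 : ∀ c : Fin (n + 2), C (T.x i ^ (2 : ℤ) * (T.x c / T.x i)) * C ((T.x i ^ 2)⁻¹) =
      (C (T.x c / T.x i) : T.BB) := by
    intro c
    rw [← C_mul]
    congr 1
    have : T.x i ^ (2 : ℤ) = T.x i ^ 2 := by norm_cast
    rw [this]
    field_simp
  rw [← mul_assoc, ← mul_assoc, h1, h1]
  unfold tt
  have h2 : ∀ c : Fin (n + 2), (C (T.x c / T.x i) : T.BB) * C (T.x i) = C (T.x c) := by
    intro c
    rw [← C_mul, div_mul_cancel₀ _ hx]
  have h3 : (C (T.x a / T.x i) : T.BB) * C (T.x b) = C (T.x b / T.x i) * C (T.x a) := by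
    rw [← C_mul, ← C_mul]
    congr 1
    ring
  calc C (T.x a) * T.δ s (T.x b) - C (T.x b) * T.δ s (T.x a)
      = (C (T.x a / T.x i) * C (T.x i)) * T.δ s (T.x b) - (C (T.x b / T.x i) * C (T.x i)) * T.δ s (T.x a) -
        (C (T.x a / T.x i) * C (T.x b) - C (T.x b / T.x i) * C (T.x a)) * T.δ s (T.x i) := by
        rw [h2, h2, h3, sub_self, zero_mul, sub_zero]
    _ = _ := by ring

theorem mem_GP_t {e : ℤ} {p m q : ℕ} {i : Fin (n + 2)} {g : T.BB} (hg : g ∈ T.GP k p e m q i) (s : Fin k)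
    (a b : Fin (n + 2)) : tt T (s : ℕ) a b * g ∈ T.GP k p (e + 2) (m + ((s : ℕ) + 1)) (q + 1) i := by
  rw [tt_eq (s : ℕ) i a b, sub_mul]
  refine Submodule.sub_mem _ ?_ ?_
  · have := mem_GP_mul (mem_GP_δ hg s b) 2 (ratio_mem i a)
    rwa [← mul_assoc] at this
  · have := mem_GP_mul (mem_GP_δ hg s a) 2 (ratio_mem i b)
    rwa [← mul_assoc] at this

end Pool.Agent.H14.UG
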