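import Pool.Agent.H14.UG.Van2

/-!
# `H¹ = 0` for large twists
-/

set_option autoImplicit false

open MvPolynomial

namespace Pool.Agent.H14.UG

open Pool.Agent.H47.UG

variable {K : Type} [Field K] {n d : ℕ} {F : HP K n} {T : FF d F} {k : ℕ}

/-- The twist which belongs to the degree `E` of a form. -/
def tw (n d : ℕ) (E p q : ℕ) : ℤ := (E : ℤ) - p * ((d : ℤ) - n - 2) + 2 * ((q : ℤ) - p * n)

variable (T k) in
/-- Values which lie in the right modules on the chart `i`. -/
noncomputable def St (i : Fin (n + 2)) (E : ℕ) : Submodule K (Polynomial T.BB) :=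
  Submodule.span K {z | ∃ (p m q : ℕ) (v : T.BB), v ∈ T.GP k p (tw n d E p q) m q i ∧
    z = Polynomial.monomial p v}

theorem one_mem_St (i : Fin (n + 2)) : (1 : Polynomial T.BB) ∈ St T k i 0 := by
  refine Submodule.subset_span ⟨0, 0, 0, 1, ?_, rfl⟩
  refine Submodule.subset_span ⟨Fin.elim0, 0, 0, 1, ?_, by simp, by simp, by simp⟩
  refine Submodule.subset_span ⟨1, one_mem _, Fin.elim0, Fin.elim0, by simp, ?_⟩
  simp [tw]

theorem St_x {i : Fin (n + 2)} {E : ℕ} {z : Polynomial T.BB} (hz : z ∈ St T k i E) (j : Fin (n + 2)) :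
    Polynomial.C (C (T.x j)) * z ∈ St T k i (E + 1) := by
  unfold St at hz
  induction hz using Submodule.span_induction with
  | mem z hz =>
    obtain ⟨p, m, q, v, hv, rfl⟩ := hz
    have h := mem_GP_x hv j
    have h1 : tw n d E p q + 1 = tw n d (E + 1) p q := by
      unfold tw
      push_cast
      ring
    rw [h1] at h
    exact Submodule.subset_span ⟨p, m, q, _, h, Polynomial.C_mul_monomial⟩
  | zero => rw [mul_zero]; exact Submodule.zero_mem _
  | add y z _ _ hy hz => rw [mul_add]; exact Submodule.add_mem _ hy hz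
  | smul c y _ hy => rw [mul_smul_comm]; exact Submodule.smul_mem _ _ hy

theorem St_t {i : Fin (n + 2)} {E : ℕ} {z : Polynomial T.BB} (hz : z ∈ St T k i E) (s : Fin k)
    (a b : Fin (n + 2)) : Polynomial.C (tt T (s : ℕ) a b) * z ∈ St T k i E := by
  unfold St at hz
  induction hz using Submodule.span_induction with
  | mem z hz =>
    obtain ⟨p, m, q, v, hv, rfl⟩ := hz
    have h := mem_GP_t hv s a b
    have h1 : tw n d E p q + 2 = tw n d E p (q + 1) := by
      unfold tw
      push_cast
      ring
    rw [h1] at h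
    exact Submodule.subset_span ⟨p, _, q + 1, _, h, Polynomial.C_mul_monomial⟩
  | zero => rw [mul_zero]; exact Submodule.zero_mem _
  | add y z _ _ hy hz => rw [mul_add]; exact Submodule.add_mem _ hy hz
  | smul c y _ hy => rw [mul_smul_comm]; exact Submodule.smul_mem _ _ hy

theorem St_ρ {i : Fin (n + 2)} {E : ℕ} {z : Polynomial T.BB} (hz : z ∈ St T k i E) (c : Fin n → Fin k) :
    (Polynomial.C (T.ρ c) * Polynomial.X) * z ∈ St T k i E := by
  unfold St at hz
  induction hz using Submodule.span_induction with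
  | mem z hz =>
    obtain ⟨p, m, q, v, hv, rfl⟩ := hz
    have h := mem_GP_ρ hv c
    have h1 : tw n d E p q - ((d : ℤ) - n - 2) = tw n d E (p + 1) (q + n) := by
      unfold tw
      push_cast
      ring
    rw [h1] at h
    refine Submodule.subset_span ⟨p + 1, m + ∑ t, ((c t : ℕ) + 1), q + n, T.ρ c * v, h, ?_⟩
    rw [mul_assoc, Polynomial.X_mul_monomial, Polynomial.C_mul_monomial]
  | zero => rw [mul_zero]; exact Submodule.zero_mem _
  | add y z _ _ hy hz => rw [mul_add]; exact Submodule.add_mem _ hy hz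
  | smul c y _ hy => rw [mul_smul_comm]; exact Submodule.smul_mem _ _ hy

theorem St_A {i : Fin (n + 2)} {E : ℕ} (a : AA K n k) : ∀ z : Polynomial T.BB, z ∈ St T k i E →
    φA T k a * z ∈ St T k i E := by
  induction a using MvPolynomial.induction_on with
  | C c =>
    intro z hz
    have h1 : φA T k (C c) = algebraMap K _ c := (φA T k).commutes c
    rw [h1, ← Algebra.smul_def]
    exact Submodule.smul_mem _ _ hz
  | add a b ha hb =>
    intro z hz
    rw [map_add, add_mul]
    exact Submodule.add_mem _ (ha z hz) (hb z hz)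
  | mul_X a v ha =>
    intro z hz
    rw [map_mul, mul_assoc]
    refine ha _ ?_
    rw [φA, aeval_X]
    rcases v with ⟨s, a, b⟩ | c
    · exact St_t hz s a b
    · exact St_ρ hz c

theorem St_mon {i : Fin (n + 2)} (b : Fin (n + 2) →₀ ℕ) : ∀ (E : ℕ) (z : Polynomial T.BB), z ∈ St T k i E →
    ψ T k (monomial b 1) * z ∈ St T k i (E + b.degree) := by
  classical
  induction b using Finsupp.induction_linear with
  | zero =>
    intro E z hz
    have h1 : (monomial (0 : Fin (n + 2) →₀ ℕ) (1 : AA K n k)) = 1 := rfl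
    rw [h1, map_one, one_mul, map_zero, add_zero]
    exact hz
  | add f g hf hg =>
    intro E z hz
    have h1 : (monomial (f + g) (1 : AA K n k)) = monomial f 1 * monomial g 1 := by
      rw [monomial_mul, one_mul]
    rw [h1, map_mul, mul_assoc, map_add, add_comm f.degree, ← add_assoc]
    exact hf _ _ (hg _ _ hz)
  | single j m =>
    intro E z hz
    have h1 : (monomial (Finsupp.single j m) (1 : AA K n k)) = X j ^ m := (X_pow_eq_monomial).symm
    rw [h1, map_pow, ψ_X, Finsupp.degree_single]
    induction m with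
    | zero => simpa using hz
    | succ m ih =>
      have h2 := St_x (ih (X_pow_eq_monomial).symm) j
      rw [← mul_assoc, ← pow_succ'] at h2
      exact h2

theorem ψ_mem_St (i : Fin (n + 2)) {E : ℕ} {Q : RR K n k} (hQ : Q.IsHomogeneous E) : ψ T k Q ∈ St T k i E := by
  classical
  rw [Q.as_sum, map_sum]
  refine Submodule.sum_mem _ fun b hb => ?_
  have h1 : b.degree = E := by
    have := hQ (mem_support_iff.1 hb)
    rwa [Finsupp.degree_eq_weight_one]
  have h2 : monomial b (coeff b Q) = C (coeff b Q) * monomial b (1 : AA K n k) := by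
    rw [C_mul_monomial, mul_one]
  rw [h2, map_mul, ψ_C]
  have h3 := St_mon (T := T) (k := k) (i := i) b 0 1 (one_mem_St i)
  rw [mul_one, zero_add, h1] at h3
  exact St_A _ _ h3

/-- The weight and the degree together. -/
def WW (n : ℕ) (p : ℕ × Fin n) : ℕ × ℕ := (1, p.1 + 1)

theorem hom_δ (s : ℕ) (v : T.L) : IsWeightedHomogeneous (WW n) (T.δ s v) (1, s + 1) := by
  unfold FF.δ
  refine IsWeightedHomogeneous.sum _ _ _ fun l _ => ?_
  exact IsWeightedHomogeneous.C_mul (isWeightedHomogeneous_X T.L (WW n) (s, l)) _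

theorem hom_ρ (c : Fin n → Fin k) : IsWeightedHomogeneous (WW n) (T.ρ c) (n, ∑ t, ((c t : ℕ) + 1)) := by
  unfold FF.ρ
  refine IsWeightedHomogeneous.C_mul ?_ _
  rw [Matrix.det_apply]
  refine IsWeightedHomogeneous.sum _ _ _ fun σ _ => ?_
  have h1 : IsWeightedHomogeneous (WW n)
      (∏ i, (Matrix.of fun l r : Fin n => (X ((c r : ℕ), l) : T.BB)) (σ i) i) (n, ∑ t, ((c t : ℕ) + 1)) := by
    have h2 := IsWeightedHomogeneous.prod (w := WW n) Finset.univ
      (fun i : Fin n => (Matrix.of fun l r : Fin n => (X ((c r : ℕ), l) : T.BB)) (σ i) i)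
      (fun i => (1, (c i : ℕ) + 1)) (fun i _ => by
        simp only [Matrix.of_apply]
        exact isWeightedHomogeneous_X T.L (WW n) ((c i : ℕ), σ i))
    convert h2 using 1
    ext
    · simp [Prod.fst_sum]
    · simp [Prod.snd_sum]
  rcases Int.units_eq_one_or (Equiv.Perm.sign σ) with h | h
  · rw [h, one_smul]
    exact h1
  · rw [h, Units.neg_smul, one_smul]
    exact h1.neg

theorem hom_GG {e : ℤ} {m q : ℕ} {i : Fin (n + 2)} {g : T.BB} (hg : g ∈ T.GG k e m q i) :
    IsWeightedHomogeneous (WW n) g (q, m) := by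
  change g ∈ Submodule.span K _ at hg
  induction hg using Submodule.span_induction with
  | mem v hv =>
    obtain ⟨b, hb, s', l', hm, rfl⟩ := hv
    refine IsWeightedHomogeneous.C_mul ?_ _
    have h2 := IsWeightedHomogeneous.prod (w := WW n) Finset.univ
      (fun r : Fin q => T.δ (s' r) (T.x (l' r) / T.x i))
      (fun r => (1, (s' r : ℕ) + 1)) (fun r _ => hom_δ _ _)
    convert h2 using 1
    ext
    · simp [Prod.fst_sum]
    · simp only [Prod.snd_sum]
      exact hm.symm
  | zero => exact isWeightedHomogeneous_zero _ _ _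
  | add y z _ _ hy hz => exact hy.add hz
  | smul c y _ hy =>
    have : c • y = C (algebraMap K T.L c) * y := by rw [Algebra.smul_def]; rfl
    rw [this]
    exact hy.C_mul _

theorem hom_GP {e : ℤ} {p m q : ℕ} {i : Fin (n + 2)} {g : T.BB} (hg : g ∈ T.GP k p e m q i) :
    IsWeightedHomogeneous (WW n) g (q, m) := by
  change g ∈ Submodule.span K _ at hg
  induction hg using Submodule.span_induction with
  | mem v hv =>
    obtain ⟨c, m', q', g', hg', hq, hm, rfl⟩ := hv
    have h2 := (IsWeightedHomogeneous.prod (w := WW n) Finset.univ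
      (fun r : Fin p => T.ρ (c r))
      (fun r => (n, ∑ t, ((c r t : ℕ) + 1))) (fun r _ => hom_ρ _)).mul (hom_GG hg')
    convert h2 using 1
    ext
    · simp only [Prod.fst_add, Prod.fst_sum, Finset.sum_const, Finset.card_univ, Fintype.card_fin, smul_eq_mul]
      omega
    · simp only [Prod.snd_add, Prod.snd_sum]
      omega
  | zero => exact isWeightedHomogeneous_zero _ _ _
  | add y z _ _ hy hz => exact hy.add hz
  | smul c y _ hy =>
    have : c • y = C (algebraMap K T.L c) * y := by rw [Algebra.smul_def]; rfl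
    rw [this]
    exact hy.C_mul _

/-- Component of given degree and weight. -/
noncomputable def pr (T : FF d F) (q m : ℕ) : T.BB →ₗ[T.L] T.BB := weightedHomogeneousComponent (WW n) (q, m)

theorem pr_GP {e : ℤ} {p m q : ℕ} {i : Fin (n + 2)} {g : T.BB} (hg : g ∈ T.GP k p e m q i) :
    pr T q m g = g := (hom_GP hg).weightedHomogeneousComponent_same

theorem pr_mem {i : Fin (n + 2)} {E : ℕ} {z : Polynomial T.BB} (hz : z ∈ St T k i E) (p m q : ℕ) :
    pr T q m (z.coeff p) ∈ T.GP k p (tw n d E p q) m q i := by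
  classical
  unfold St at hz
  induction hz using Submodule.span_induction with
  | mem z hz =>
    obtain ⟨p', m', q', v, hv, rfl⟩ := hz
    rw [Polynomial.coeff_monomial]
    split_ifs with h
    · subst h
      by_cases h2 : ((q', m') : ℕ × ℕ) = (q, m)
      · obtain ⟨rfl, rfl⟩ := Prod.ext_iff.1 h2
        rw [show ((q', m') : ℕ × ℕ).1 = q' from rfl, show ((q', m') : ℕ × ℕ).2 = m' from rfl, pr_GP hv]
        exact hv
      · unfold pr
        rw [(hom_GP hv).weightedHomogeneousComponent_ne _ (by simpa [eq_comm] using h2)]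
        exact Submodule.zero_mem _
    · rw [map_zero]
      exact Submodule.zero_mem _
  | zero => rw [Polynomial.coeff_zero, map_zero]; exact Submodule.zero_mem _
  | add y z _ _ hy hz => rw [Polynomial.coeff_add, map_add]; exact Submodule.add_mem _ hy hz
  | smul c y _ hy =>
    rw [Polynomial.coeff_smul]
    have h1 : c • y.coeff p = (algebraMap K T.L c) • y.coeff p := by rw [algebraMap_smul]
    rw [h1, map_smul, algebraMap_smul]
    exact Submodule.smul_mem _ _ hy

end Pool.Agent.H14.UG
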