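import Pool.Agent.H14.UG.Van3
import Pool.Agent.H11.UG.SerreP

/-!
# `H¹ = 0` for large twists: the theorem
-/

set_option autoImplicit false

open MvPolynomial

namespace Pool.Agent.H14.UG

open Pool.Agent.H47.UG

variable {K : Type} [Field K] {n d : ℕ} {F : HP K n} {T : FF d F} {k : ℕ}

/-- Serre vanishing for prime ideals. -/
theorem serre_ker {A : Type} [CommRing A] [Algebra K A] [Infinite K]
    [IsNoetherianRing A] {r : ℕ} (I : Ideal (MvPolynomial (Fin r) A)) (hp : I.IsPrime)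
    (hX : ∀ i, (X i : MvPolynomial (Fin r) A) ∉ I) : ∃ e₀ : ℕ, ∀ e ≥ e₀, ∀ (t : ℕ)
    (P : Fin r → Fin r → MvPolynomial (Fin r) A), (∀ i j, (P i j).IsHomogeneous (e + 2 * t)) →
    (∀ i j, P i j + P j i ∈ I) → (∀ i, P i i ∈ I) →
    (∀ i j k, X k ^ t * P i j - X j ^ t * P i k + X i ^ t * P j k ∈ I) →
    ∃ (u : ℕ) (Q : Fin r → MvPolynomial (Fin r) A), (∀ i, (Q i).IsHomogeneous (e + t + u)) ∧
      ∀ i j, (X i * X j) ^ u * P i j - (X j ^ (t + u) * Q i - X i ^ (t + u) * Q j) ∈ I := by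
  have : I.IsPrime := hp
  have hφ : ∀ P : MvPolynomial (Fin r) A,
      ((IsScalarTower.toAlgHom K (MvPolynomial (Fin r) A ⧸ I)
        (FractionRing (MvPolynomial (Fin r) A ⧸ I))).comp
      ((Ideal.Quotient.mkₐ (MvPolynomial (Fin r) A) I).restrictScalars K)) P = 0 ↔ P ∈ I := by
    intro P
    have h1 : ((IsScalarTower.toAlgHom K (MvPolynomial (Fin r) A ⧸ I)
        (FractionRing (MvPolynomial (Fin r) A ⧸ I))).comp
      ((Ideal.Quotient.mkₐ (MvPolynomial (Fin r) A) I).restrictScalars K)) P =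
        algebraMap (MvPolynomial (Fin r) A ⧸ I) (FractionRing (MvPolynomial (Fin r) A ⧸ I))
          (Ideal.Quotient.mk I P) := rfl
    rw [h1, FaithfulSMul.algebraMap_eq_zero_iff, Ideal.Quotient.eq_zero_iff_mem]
  exact Pool.Agent.H11.UG.serre_hom I _ hφ hX

theorem II_ψ {P : RR K n k} (hP : P ∈ RingHom.ker (ψ T k)) : ψ T k P = 0 := hP

theorem pr_C_mul (q m : ℕ) (a : T.L) (v : T.BB) : pr T q m (C a * v) = C a * pr T q m v := by
  rw [← smul_eq_C_mul, ← smul_eq_C_mul, map_smul]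

theorem vanish [Infinite K] (T : FF d F) (k : ℕ) : ∃ c₀ : ℕ, ∀ (p m q : ℕ) (e : ℤ),
    (c₀ : ℤ) + 2 * q ≤ e + p * ((d : ℤ) - n - 2) → T.H1zero (T.GP k p e m q) := by
  classical
  obtain ⟨e₀, he₀⟩ := serre_ker (K := K) (A := AA K n k) (RingHom.ker (ψ T k)) (RingHom.ker_isPrime _)
    (fun i hi => by
      have h1 : ψ T k (X i) = 0 := hi
      rw [ψ_X, Polynomial.C_eq_zero, C_eq_zero] at h1
      exact T.x_ne i h1)
  refine ⟨e₀, fun p m q e he v hv => ?_⟩
  obtain ⟨E, hE⟩ : ∃ E : ℕ, (E : ℤ) = e + p * ((d : ℤ) - n - 2) - 2 * ((q : ℤ) - p * n) := by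
    refine ⟨(e + p * ((d : ℤ) - n - 2) - 2 * ((q : ℤ) - p * n)).toNat, Int.toNat_of_nonneg ?_⟩
    have : (0 : ℤ) ≤ p * n := by positivity
    have : (0 : ℤ) ≤ e₀ := by positivity
    linarith
  have hE0 : e₀ ≤ E := by
    have : (0 : ℤ) ≤ p * n := by positivity
    have h2 : (e₀ : ℤ) ≤ E := by
      rw [hE]
      linarith
    exact_mod_cast h2
  have h1 : ∀ i j, ∃ N : ℕ, ∀ t ≥ N, C ((T.x i * T.x j) ^ t) * (v i - v j) ∈ Im T k (E + 2 * t) p := by
    intro i j
    obtain ⟨N, hN⟩ := hv i j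
    obtain ⟨N1, h1⟩ := rep_GP hN hE
    refine ⟨max N N1, fun t ht => ?_⟩
    have ht1 : N ≤ t := le_trans (le_max_left _ _) ht
    have ht2 : N1 ≤ t := le_trans (le_max_right _ _) ht
    have h2 := Im_xpow (h1 (t + N) (by omega)) j (t - N)
    have h3 : E + (t + N) + (t - N) = E + 2 * t := by omega
    rw [h3] at h2
    convert h2 using 1
    rw [smul_eq_C_mul, ← mul_assoc, ← mul_assoc, ← C_mul, ← C_mul]
    congr 2
    have hxi := T.x_ne i
    have h4 : T.x j ^ t = T.x j ^ (t - N) * T.x j ^ N := by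
      rw [← pow_add]
      congr 1
      omega
    rw [mul_pow, h4, pow_add, div_pow]
    field_simp
  choose N hN using h1
  obtain ⟨t, ht⟩ : ∃ t : ℕ, ∀ i j, N i j ≤ t := by
    refine ⟨Finset.univ.sup fun i => Finset.univ.sup (N i), fun i j => ?_⟩
    exact le_trans (Finset.le_sup (f := N i) (Finset.mem_univ j))
      (Finset.le_sup (f := fun i => Finset.univ.sup (N i)) (Finset.mem_univ i))
  have h2 : ∀ i j, ∃ P : RR K n k, P.IsHomogeneous (E + 2 * t) ∧
      ψ T k P = Polynomial.monomial p (C ((T.x i * T.x j) ^ t) * (v i - v j)) := fun i j => hN i j t (ht i j)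
  choose P hP hψ using h2
  have hXP : ∀ (l : Fin (n + 2)) (s : ℕ) (w : T.BB),
      ψ T k (X l ^ s) * Polynomial.monomial p w = Polynomial.monomial p (C (T.x l ^ s) * w) := by
    intro l s w
    rw [map_pow, ψ_X, ← Polynomial.C_pow, Polynomial.C_mul_monomial, C_pow]
  obtain ⟨u, Q, hQ, hrel⟩ := he₀ E hE0 t P hP (fun i j => by
    rw [RingHom.mem_ker, map_add, hψ, hψ, ← map_add]
    have : C ((T.x i * T.x j) ^ t) * (v i - v j) + C ((T.x j * T.x i) ^ t) * (v j - v i) = (0 : T.BB) := by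
      rw [mul_comm (T.x j)]
      ring
    rw [this, map_zero]) (fun i => by
    rw [RingHom.mem_ker, hψ, sub_self, mul_zero, map_zero]) (fun i j l => by
    rw [RingHom.mem_ker, map_add, map_sub, map_mul, map_mul, map_mul, hψ, hψ, hψ, hXP, hXP, hXP, ← map_sub,
      ← map_add]
    have : C (T.x l ^ t) * (C ((T.x i * T.x j) ^ t) * (v i - v j)) -
        C (T.x j ^ t) * (C ((T.x i * T.x l) ^ t) * (v i - v l)) +
        C (T.x i ^ t) * (C ((T.x j * T.x l) ^ t) * (v j - v l)) = (0 : T.BB) := by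
      simp only [mul_pow, C_mul]
      ring
    rw [this, map_zero])
  have hq : ∀ i, pr T q m ((ψ T k (Q i)).coeff p) ∈ T.GP k p (tw n d (E + t + u) p q) m q i :=
    fun i => pr_mem (ψ_mem_St i (hQ i)) p m q
  have htw : tw n d (E + t + u) p q = e + ((t + u : ℕ) : ℤ) := by
    unfold tw
    push_cast
    rw [hE]
    ring
  rw [htw] at hq
  have hz : ∀ i, C (T.x i ^ (-((t + u : ℕ) : ℤ)) * 1) * pr T q m ((ψ T k (Q i)).coeff p) ∈ T.GP k p e m q i := by
    intro i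
    have := mem_GP_mul (hq i) (-((t + u : ℕ) : ℤ)) (one_mem (T.A i))
    rwa [add_neg_cancel_right] at this
  have hpr : ∀ i j, pr T q m (v i - v j) = v i - v j := by
    intro i j
    obtain ⟨N, hN⟩ := hv i j
    have h1 := pr_GP hN
    rw [map_smul] at h1
    have h2 : (T.x j / T.x i) ^ N ≠ 0 := pow_ne_zero _ (div_ne_zero (T.x_ne j) (T.x_ne i))
    exact smul_right_injective _ h2 h1
  have hcoef : ∀ i j, C ((T.x i * T.x j) ^ (t + u)) * (v i - v j) =
      C (T.x j ^ (t + u)) * pr T q m ((ψ T k (Q i)).coeff p) -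
        C (T.x i ^ (t + u)) * pr T q m ((ψ T k (Q j)).coeff p) := by
    intro i j
    have h3 := II_ψ (hrel i j)
    rw [map_sub, map_sub, map_mul, map_mul, map_mul, hψ, sub_eq_zero] at h3
    have h4 : ψ T k ((X i * X j) ^ u) = Polynomial.C (C ((T.x i * T.x j) ^ u)) := by
      rw [map_pow, map_mul, ψ_X, ψ_X, ← Polynomial.C_mul, ← C_mul, ← Polynomial.C_pow, C_pow]
    have h5 : ∀ l : Fin (n + 2), ψ T k (X l ^ (t + u)) = Polynomial.C (C (T.x l ^ (t + u))) := by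
      intro l
      rw [map_pow, ψ_X, ← Polynomial.C_pow, C_pow]
    rw [h4, h5, h5, Polynomial.C_mul_monomial] at h3
    have h6 := congrArg (fun z : Polynomial T.BB => pr T q m (z.coeff p)) h3
    simp only [Polynomial.coeff_sub, Polynomial.coeff_C_mul, Polynomial.coeff_monomial, if_true, map_sub,
      pr_C_mul] at h6
    rw [← h6]
    have h7 := hpr i j
    rw [map_sub] at h7
    rw [h7, ← mul_assoc, ← C_mul, ← pow_add, add_comm u t]
  have hdiff : ∀ i j, v i - v j = C (T.x i ^ (-((t + u : ℕ) : ℤ)) * 1) * pr T q m ((ψ T k (Q i)).coeff p) -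
      C (T.x j ^ (-((t + u : ℕ) : ℤ)) * 1) * pr T q m ((ψ T k (Q j)).coeff p) := by
    intro i j
    have hi := T.x_ne i
    have hj := T.x_ne j
    have h3 := congrArg (fun z => C (((T.x i * T.x j) ^ (t + u))⁻¹) * z) (hcoef i j)
    simp only [mul_sub, ← mul_assoc, ← C_mul] at h3
    have h4 : ((T.x i * T.x j) ^ (t + u))⁻¹ * (T.x i * T.x j) ^ (t + u) = 1 :=
      inv_mul_cancel₀ (pow_ne_zero _ (mul_ne_zero hi hj))
    have h5 : ((T.x i * T.x j) ^ (t + u))⁻¹ * T.x j ^ (t + u) = T.x i ^ (-((t + u : ℕ) : ℤ)) * 1 := by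
      rw [zpow_neg, zpow_natCast, mul_pow]
      field_simp
    have h6 : ((T.x i * T.x j) ^ (t + u))⁻¹ * T.x i ^ (t + u) = T.x j ^ (-((t + u : ℕ) : ℤ)) * 1 := by
      rw [zpow_neg, zpow_natCast, mul_pow]
      field_simp
    rw [h4, h5, h6, C_1, one_mul, one_mul] at h3
    exact h3
  refine ⟨v 0 - C (T.x 0 ^ (-((t + u : ℕ) : ℤ)) * 1) * pr T q m ((ψ T k (Q 0)).coeff p), fun i => ?_⟩
  have h8 := hdiff i 0
  have h9 : v i - (v 0 - C (T.x 0 ^ (-((t + u : ℕ) : ℤ)) * 1) * pr T q m ((ψ T k (Q 0)).coeff p)) =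
      C (T.x i ^ (-((t + u : ℕ) : ℤ)) * 1) * pr T q m ((ψ T k (Q i)).coeff p) := by
    rw [sub_sub_eq_add_sub, sub_eq_iff_eq_add, add_comm (v i)]
    rw [sub_eq_sub_iff_add_eq_add] at h8
    rw [add_comm] at h8
    rw [h8]
  rw [h9]
  exact hz i

end Pool.Agent.H14.UG
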